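import Pool.Agent.Q179.DV.Gow
import Pool.Agent.Q179.DV.Inst
import Pool.Agent.W36.GK.K20

set_option autoImplicit false

/-!
# Divergent trajectories of the `3x+1` map: the time shifts along linear forms

Let the trajectory of `a` be divergent. If the trajectory of `x` meets it, `T^k x = T^j a`, then the time shift
`u = k - j` of `x` relative to `a` does not depend on the choice of `k` and `j`. Let `L_1, ..., L_r` be affine linear
forms in several integral variables, any two of which have linearly independent linear parts, for example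
the terms `v_1, v_1 + v_2, v_1 + 2 v_2, ...` of an arithmetic progression, and let `a_1, ..., a_r` be integers with
divergent trajectories (equal or not). Then the events that the value of `L_i` is in the class of the integers
whose trajectories meet the trajectory of `a_i`, with a time shift in a given residue class modulo `m_i` and in a
given window of the normal law, are asymptotically independent, uniformly in the constant terms of the
forms, in boxes and in intervals for the values.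

Method: the indicator functions of these sets minus their densities satisfy the hypotheses (local constancy,
dilations by `2 ^ m` and `3`, Fourier coefficients) of the theorem of the starting files `Pool/Agent/W36/GK` on Gowers
norms; the arguments for the total stopping time in `Pool/Agent/W36/JL` (starting files) are adapted.
-/

namespace Pool.Agent.Results.MP_ff4775_nt.JointShiftLaws

open Filter Topology

/-- The map `T` of the problem. -/
def T (n : ℤ) : ℤ := if n % 2 = 0 then n / 2 else (3 * n + 1) / 2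

/-- The trajectory of `n` is divergent. -/
def Divergent (n : ℤ) : Prop := Tendsto (fun k : ℕ => |T^[k] n|) atTop atTop

/-- The trajectory of `x` meets that of `a` with the time shift `u`: after `k` steps it is at the point where the
trajectory of `a` is after `j` steps, and `u = k - j`. -/
def Shift (a x u : ℤ) : Prop := ∃ k j : ℕ, T^[k] x = T^[j] a ∧ u = (k : ℤ) - j

/-- The integers whose trajectories meet the trajectory of `a`. -/
def Class (a : ℤ) : Set ℤ := {x | ∃ u : ℤ, Shift a x u}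

/-- Among the integers of sign `s` the set `S` has natural density `δ`. -/
def HasDensity (s : ℤ) (S : Set ℤ) (δ : ℝ) : Prop :=
  Tendsto (fun N : ℕ => ({n : ℤ | 0 < s * n ∧ s * n ≤ N ∧ n ∈ S}.ncard : ℝ) / N) atTop (𝓝 δ)

/-- `2 / log (4/3) * log |z| + x * log 3 * √(2 log |z| / (log (4/3))^3)` -/
noncomputable def bound (x : ℝ) (z : ℤ) : ℝ :=
  2 / Real.log (4 / 3) * Real.log |(z : ℝ)|
    + x * (Real.log 3 * Real.sqrt (2 * Real.log |(z : ℝ)| / Real.log (4 / 3) ^ 3))

/-- The distribution function of the standard normal law. -/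
noncomputable def Phi (x : ℝ) : ℝ :=
  ProbabilityTheory.cdf (ProbabilityTheory.gaussianReal 0 1) x

/-- The integers `z` whose trajectories meet the trajectory of `a` with a time shift `u` such that
`bound y z < u ≤ bound x z` and `u ≡ p` modulo `m`. -/
def Window (a : ℤ) (m : ℕ) (p : ℤ) (y x : ℝ) : Set ℤ :=
  {z : ℤ | ∃ u : ℤ, Shift a z u ∧ bound y z < u ∧ (u : ℝ) ≤ bound x z ∧ u ≡ p [ZMOD m]}

/-- The number of the points `v` of the box `∏ (P j, P' j]` such that, for every `i`, the value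
`Λ i • v + c i` of the `i`-th form is in `S i`, and `s i` times the value is in the interval `(M i, N i]`. -/
noncomputable def Points {D r : ℕ} (Λ : Fin r → Fin D → ℤ) (c s : Fin r → ℤ) (M N : Fin r → ℕ) (P P' : Fin D → ℤ)
    (S : Fin r → Set ℤ) : ℕ :=
  {v : Fin D → ℤ | (∀ j, P j < v j ∧ v j ≤ P' j) ∧ ∀ i, (∑ j, Λ i j * v j + c i) ∈ S i ∧
    (M i : ℤ) < s i * (∑ j, Λ i j * v j + c i) ∧ s i * (∑ j, Λ i j * v j + c i) ≤ N i}.ncard

/-! ### proofs -/

open Pool.Agent.Q179.DV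

theorem inj_of {a : ℤ} (h : Divergent a) : Function.Injective (fun j : ℕ => T^[j] a) := by
  have key : ∀ i p : ℕ, 0 < p → T^[i + p] a = T^[i] a → False := by
    intro i p hp he
    have h1 : ∀ n : ℕ, T^[i + n * p] a = T^[i] a := by
      intro n
      induction n with
      | zero => simp
      | succ n ih =>
        have e : i + (n + 1) * p = n * p + (i + p) := by ring
        rw [e, Function.iterate_add_apply, he, ← Function.iterate_add_apply, Nat.add_comm (n * p) i, ih]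
    have h2 : Tendsto (fun n : ℕ => i + n * p) atTop atTop :=
      tendsto_atTop_mono (fun n => (Nat.le_mul_of_pos_right n hp).trans (Nat.le_add_left _ _)) tendsto_id
    have h3 := h.comp h2
    have h4 : ((fun k : ℕ => |T^[k] a|) ∘ fun n : ℕ => i + n * p) = fun _ => |T^[i] a| := by
      funext n
      simp only [Function.comp, h1]
    rw [h4] at h3
    exact not_tendsto_const_atTop _ _ h3
  intro i j hij
  simp only at hij
  rcases lt_trichotomy i j with h1 | h1 | h1
  · exact (key i (j - i) (by omega) (by rw [Nat.add_sub_cancel' h1.le]; exact hij.symm)).elim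
  · exact h1
  · exact (key j (i - j) (by omega) (by rw [Nat.add_sub_cancel' h1.le]; exact hij)).elim

theorem sign_T (x : ℤ) : (T x).sign = x.sign := by
  unfold T
  rcases lt_trichotomy x 0 with h | h | h
  · rw [Int.sign_eq_neg_one_of_neg h]
    apply Int.sign_eq_neg_one_of_neg
    split_ifs <;> omega
  · subst h; rfl
  · rw [Int.sign_eq_one_of_pos h]
    apply Int.sign_eq_one_of_pos
    split_ifs <;> omega

theorem sign_iter (k : ℕ) (x : ℤ) : (T^[k] x).sign = x.sign := by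
  induction k generalizing x with
  | zero => rfl
  | succ k ih => rw [Function.iterate_succ_apply, ih, sign_T]

theorem sign_shift {a x u : ℤ} (h : Shift a x u) : x.sign = a.sign := by
  obtain ⟨k, j, h, -⟩ := h
  rw [← sign_iter k x, h, sign_iter]

theorem shift_iff {a x u : ℤ} : Shift a x u ↔ ∃ v : ℤ, Sh a x u v := by
  constructor
  · rintro ⟨k, j, h1, h2⟩
    exact ⟨_, k, j, h1, h2.symm, rfl⟩
  · rintro ⟨v, k, j, h1, h2, h3⟩
    exact ⟨k, j, h1, h2.symm⟩

theorem shift_unique {a x u u' : ℤ} (ha : Divergent a) (h : Shift a x u) (h' : Shift a x u') : u = u' := by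
  obtain ⟨v, h⟩ := shift_iff.1 h
  obtain ⟨v', h'⟩ := shift_iff.1 h'
  exact (Sh_unique (inj_of ha) h h').1

theorem ne_zero {a : ℤ} (ha : Divergent a) : a ≠ 0 := by
  rintro rfl
  have := inj_of ha (a₁ := 0) (a₂ := 1) rfl
  omega

theorem sign_cases {a : ℤ} (ha : Divergent a) : a.sign = 1 ∨ a.sign = -1 := by
  rcases lt_trichotomy a 0 with h | h | h
  · exact Or.inr (Int.sign_eq_neg_one_of_neg h)
  · exact absurd h (ne_zero ha)
  · exact Or.inl (Int.sign_eq_one_of_pos h)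

theorem pos_of_sign {s z : ℤ} (hs : s = 1 ∨ s = -1) (h : z.sign = s) : 0 < s * z := by
  rcases hs with rfl | rfl
  · have := Int.sign_eq_one_iff_pos.1 h
    omega
  · have := Int.sign_eq_neg_one_iff_neg.1 h
    omega

theorem bound_eq {s z : ℤ} (hs : s = 1 ∨ s = -1) (h : 0 < s * z) (x : ℝ) : bd x (s * z).toNat = bound x z := by
  have e : (((s * z).toNat : ℕ) : ℝ) = |(z : ℝ)| := by
    have h1 : (((s * z).toNat : ℕ) : ℤ) = s * z := Int.toNat_of_nonneg h.le
    have h2 : (((s * z).toNat : ℕ) : ℝ) = ((s * z : ℤ) : ℝ) := by exact_mod_cast h1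
    rw [h2]
    rcases hs with rfl | rfl
    · have h3 : (0 : ℝ) < z := by
        have : 0 < z := by omega
        exact_mod_cast this
      rw [abs_of_pos h3]; push_cast; ring
    · have h3 : (z : ℝ) < 0 := by
        have : z < 0 := by omega
        exact_mod_cast this
      rw [abs_of_neg h3]; push_cast; ring
  unfold bd bound
  rw [e]

theorem window_eq {a s : ℤ} (ha : Divergent a) (hs : s = 1 ∨ s = -1) (hsa : a.sign = s) (m : ℕ) (p : ℤ) (y x : ℝ) :
    (shG hs a m).WS p y x = Window a m p y x := by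
  have hss : ∀ z : ℤ, s * (s * z) = z := fun z => by rcases hs with rfl | rfl <;> ring
  ext z
  unfold GF.WS GF.LS Window
  constructor
  · rintro ⟨⟨h1, u, v, h2, h3, h4⟩, h5⟩
    rw [hss] at h2
    refine ⟨u, shift_iff.2 ⟨v, h2⟩, ?_, ?_, h4⟩
    · by_contra hcon
      push Not at hcon
      refine h5 ⟨h1, u, v, by rw [hss]; exact h2, ?_, h4⟩
      rw [bound_eq hs h1]; exact hcon
    · rw [bound_eq hs h1] at h3; exact h3
  · rintro ⟨u, h1, h2, h3, h4⟩
    have hz : 0 < s * z := pos_of_sign hs ((sign_shift h1).trans hsa)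
    obtain ⟨v, hv⟩ := shift_iff.1 h1
    refine ⟨⟨hz, u, v, by rw [hss]; exact hv, by rw [bound_eq hs hz]; exact h3, h4⟩, ?_⟩
    rintro ⟨-, u', v', h5, h6, -⟩
    rw [hss] at h5
    rw [bound_eq hs hz] at h6
    obtain ⟨rfl, -⟩ := Sh_unique (inj_of ha) hv h5
    linarith

theorem phi_eq (x : ℝ) : Pool.Agent.H499R2.ND.Phi x = Phi x := Pool.Agent.H499R2.ND.phi_cdf x

theorem density {a s : ℤ} (ha : Divergent a) (hs : s = 1 ∨ s = -1) (hsa : a.sign = s) :
    ∃ δ : ℝ, 0 < δ ∧ δ ≤ 1 ∧ HasDensity s (Class a) δ ∧ ∀ m : ℕ, 1 ≤ m → (shG hs a m).Law δ := by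
  classical
  obtain ⟨δ, h0, h1, hpos, hD, hL⟩ := shG_law hs (a := a) (inj_of ha)
  refine ⟨δ, hpos (pos_of_sign hs hsa), h1, ?_, hL⟩
  unfold HasDensity
  refine hD.congr fun N => ?_
  congr 1
  rw [Pool.Agent.H499R2.ND.cnt_eq]
  have e : {n : ℤ | 0 < s * n ∧ s * n ≤ N ∧ n ∈ Class a} =
      ((((Finset.Icc 1 N).filter (fun n : ℕ => s * (n : ℤ) ∈ Mt a)).image (fun n : ℕ => s * (n : ℤ)) : Finset ℤ) : Set ℤ) := by
    ext z
    rw [Finset.coe_image]
    simp only [Set.mem_ofPred_eq, Set.mem_image, Finset.mem_coe, Finset.mem_filter, Finset.mem_Icc]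
    have hss : ∀ z : ℤ, s * (s * z) = z := fun z => by rcases hs with rfl | rfl <;> ring
    constructor
    · rintro ⟨h2, h3, u, h4⟩
      refine ⟨(s * z).toNat, ⟨⟨by omega, by omega⟩, ?_⟩, ?_⟩
      · rw [Int.toNat_of_nonneg h2.le, hss]
        obtain ⟨v, hv⟩ := shift_iff.1 h4
        exact ⟨u, v, hv⟩
      · rw [Int.toNat_of_nonneg h2.le, hss]
    · rintro ⟨n, ⟨⟨h2, h3⟩, u, v, h4⟩, rfl⟩
      rw [hss]
      exact ⟨by exact_mod_cast h2, by exact_mod_cast h3, u, shift_iff.2 ⟨v, h4⟩⟩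
  rw [e, Set.ncard_coe_finset, Finset.card_image_of_injective]
  intro i j hij
  have hs0 : s ≠ 0 := by rcases hs with rfl | rfl <;> norm_num
  exact_mod_cast mul_left_cancel₀ hs0 hij

open Classical in
/-- the density of the class of `a` -/
noncomputable def dens (a : ℤ) : ℝ := if h : ∃ δ : ℝ, HasDensity a.sign (Class a) δ then h.choose else 0

theorem dens_spec {a : ℤ} (ha : Divergent a) : 0 < dens a ∧ dens a ≤ 1 ∧ HasDensity a.sign (Class a) (dens a) ∧
    ∀ (hs : a.sign = 1 ∨ a.sign = -1) (m : ℕ), 1 ≤ m → (shG hs a m).Law (dens a) := by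
  obtain ⟨δ, h0, h1, h2, h3⟩ := density ha (sign_cases ha) rfl
  have h : ∃ δ : ℝ, HasDensity a.sign (Class a) δ := ⟨δ, h2⟩
  have e : dens a = δ := by
    unfold dens
    rw [dif_pos h]
    exact tendsto_nhds_unique h.choose_spec h2
  rw [e]
  exact ⟨h0, h1, h2, fun hs m hm => h3 m hm⟩

theorem joint (D r : ℕ) (Λ : Fin r → Fin D → ℤ) (h0 : ∀ i, Λ i ≠ 0)
    (hΛ : ∀ i j, i ≠ j → ∀ b c : ℤ, b • Λ i = c • Λ j → b = 0 ∧ c = 0) (a : Fin r → ℤ) (ha : ∀ i, Divergent (a i))
    (m : Fin r → ℕ) (hm : ∀ i, 1 ≤ m i) (p : Fin r → ℤ) (y x : Fin r → ℝ) (hyx : ∀ i, y i ≤ x i) (ε : ℝ) (hε : 0 < ε) :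
    ∃ X₀ : ℕ, ∀ X : ℕ, X₀ ≤ X → ∀ (c : Fin r → ℤ) (M N : Fin r → ℕ), (∀ i, M i ≤ N i) → (∀ i, N i ≤ X) →
    ∀ P P' : Fin D → ℤ, (∀ j, P' j - P j ≤ X) →
      |(Points Λ c (fun i => (a i).sign) M N P P' (fun i => Window (a i) (m i) (p i) (y i) (x i)) : ℝ) -
        (∏ i, dens (a i) * (Phi (x i) - Phi (y i)) / m i) *
          Points Λ c (fun i => (a i).sign) M N P P' (fun _ => Set.univ)| ≤ ε * (X : ℝ) ^ D := by
  have hs : ∀ i, (a i).sign = 1 ∨ (a i).sign = -1 := fun i => sign_cases (ha i)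
  have hd : ∀ i, 0 ≤ dens (a i) * (Pool.Agent.H499R2.ND.Phi (x i) - Pool.Agent.H499R2.ND.Phi (y i)) / m i ∧
      dens (a i) * (Pool.Agent.H499R2.ND.Phi (x i) - Pool.Agent.H499R2.ND.Phi (y i)) / m i ≤ 1 := fun i =>
    GF.w_mem (dens_spec (ha i)).1.le (dens_spec (ha i)).2.1 (hm i) (hyx i)
  obtain ⟨X0, h⟩ := countG hs Λ h0 hΛ (fun i => (shG (hs i) (a i) (m i)).WS (p i) (y i) (x i))
    (fun i => dens (a i) * (Pool.Agent.H499R2.ND.Phi (x i) - Pool.Agent.H499R2.ND.Phi (y i)) / m i) hd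
    (fun i => Pool.Agent.W36.GK.GN_all (GF.hyp_WS (hs i) (dens_spec (ha i)).1.le (dens_spec (ha i)).2.1 (hm i)
      ((dens_spec (ha i)).2.2.2 (hs i) (m i) (hm i)) (p i) (hyx i)) r) hε
  refine ⟨X0, fun X hX c M N hM hN P P' hP => ?_⟩
  have h1 := h X hX c M N hM hN P P' hP
  have e : (fun i => (shG (hs i) (a i) (m i)).WS (p i) (y i) (x i)) =
      fun i => Window (a i) (m i) (p i) (y i) (x i) := by
    funext i
    exact window_eq (ha i) (hs i) rfl _ _ _ _
  rw [e] at h1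
  simp only [phi_eq] at h1
  exact h1

theorem phi_lt {y x : ℝ} (h : y < x) : Phi y < Phi x := by
  rw [← phi_eq, ← phi_eq]
  exact Phi_lt h

theorem many (D r : ℕ) (Λ : Fin r → Fin D → ℤ)
    (hΛ : ∀ i j, i ≠ j → ∀ b c : ℤ, b • Λ i = c • Λ j → b = 0 ∧ c = 0) (hv : ∃ v : Fin D → ℤ, ∀ i, 0 < ∑ j, Λ i j * v j)
    (s : ℤ) (hs : s = 1 ∨ s = -1) (a : Fin r → ℤ) (ha : ∀ i, Divergent (a i) ∧ (a i).sign = s)
    (m : Fin r → ℕ) (hm : ∀ i, 1 ≤ m i) (p : Fin r → ℤ) (y x : Fin r → ℝ) (hyx : ∀ i, y i < x i) :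
    ∃ κ : ℝ, 0 < κ ∧ ∃ X₀ : ℕ, ∀ X : ℕ, X₀ ≤ X → κ * (X : ℝ) ^ D ≤
      ({v : Fin D → ℤ | (∀ j, -(X : ℤ) < v j ∧ v j ≤ X) ∧ ∀ i, (∑ j, Λ i j * v j) ∈ Window (a i) (m i) (p i) (y i) (x i) ∧
        0 < s * ∑ j, Λ i j * v j ∧ s * ∑ j, Λ i j * v j ≤ X}.ncard : ℝ) := by
  obtain ⟨v, hv⟩ := hv
  have h0 : ∀ i, Λ i ≠ 0 := by
    intro i h
    have := hv i
    rw [h] at this
    simp at this
  obtain ⟨κ, hκ, N0, h1⟩ := Pool.Agent.W36.GK.pts_lower Λ v hv hs
  set w : ℝ := ∏ i, dens (a i) * (Phi (x i) - Phi (y i)) / m i with hw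
  have hw0 : 0 < w := by
    apply Finset.prod_pos
    intro i _
    have h2 := (dens_spec (ha i).1).1
    have h3 := phi_lt (hyx i)
    have h4 : (0 : ℝ) < m i := by exact_mod_cast hm i
    have h5 : 0 < Phi (x i) - Phi (y i) := by linarith
    positivity
  obtain ⟨X0, h2⟩ := joint D r Λ h0 hΛ a (fun i => (ha i).1) m hm p y x (fun i => (hyx i).le)
    (w * κ / 2 / 2 ^ D) (by positivity)
  refine ⟨w * κ / 2, by positivity, N0 + X0, fun X hX => ?_⟩
  have hsign : (fun i => (a i).sign) = fun _ => s := by funext i; exact (ha i).2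
  have h3 := h2 (2 * X) (by omega) 0 (fun _ => 0) (fun _ => X) (fun _ => Nat.zero_le _) (fun _ => by omega)
    (fun _ => -(X : ℤ)) (fun _ => (X : ℤ)) (fun _ => by push_cast; omega)
  rw [hsign] at h3
  have h4 := h1 X (by omega)
  have e1 : (Pool.Agent.W36.GK.Cn Λ 0 (fun _ => s) (fun _ => 0) (fun _ => X) (fun _ => -(X : ℤ)) (fun _ => (X : ℤ)) fun _ => Set.univ) =
      Points Λ 0 (fun _ => s) (fun _ => 0) (fun _ => X) (fun _ => -(X : ℤ)) (fun _ => (X : ℤ)) (fun _ => Set.univ) := rfl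
  rw [e1] at h4
  have e2 : Points Λ 0 (fun _ => s) (fun _ => 0) (fun _ => X) (fun _ => -(X : ℤ)) (fun _ => (X : ℤ))
      (fun i => Window (a i) (m i) (p i) (y i) (x i)) =
      {v : Fin D → ℤ | (∀ j, -(X : ℤ) < v j ∧ v j ≤ X) ∧ ∀ i, (∑ j, Λ i j * v j) ∈ Window (a i) (m i) (p i) (y i) (x i) ∧
        0 < s * ∑ j, Λ i j * v j ∧ s * ∑ j, Λ i j * v j ≤ X}.ncard := by
    unfold Points
    simp only [Pi.zero_apply, add_zero, Nat.cast_zero]
  rw [e2] at h3
  have h5 := (abs_le.1 h3).1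
  have h6 : w * κ / 2 / 2 ^ D * ((2 * X : ℕ) : ℝ) ^ D = w * κ / 2 * (X : ℝ) ^ D := by
    push_cast
    rw [mul_pow]
    field_simp
  rw [h6] at h5
  have h7 := mul_le_mul_of_nonneg_left h4 hw0.le
  have h8 : w * (κ * (X : ℝ) ^ D) = w * κ / 2 * (X : ℝ) ^ D + w * κ / 2 * (X : ℝ) ^ D := by ring
  rw [← hw] at h5
  linarith

/-- THE TIME SHIFTS OF DIVERGENT TRAJECTORIES ALONG LINEAR FORMS. (1) Let the trajectory of `a` be divergent. Every
`x` in the class of `a` has exactly one time shift relative to `a`, and the sign of `a`.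
(2) The class of `a` has among the integers of the sign of `a` a natural density `δ a > 0`. Let `Λ i` be the linear parts
of `r` affine linear forms in `D` variables, none of them zero and any two linearly independent, let
`a i` be integers with divergent trajectories, `m i ≥ 1`, `p i` integers and `y i ≤ x i`. For `ε > 0` there is `X₀` such
that for `X ≥ X₀`, all constant terms `c i`, all intervals `(M i, N i]` with `N i ≤ X` and all boxes with sides at most `X`
the number of the integral points `v` of the box such that the value `Λ i • v + c i` has the sign of `a i`, absolute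
value in `(M i, N i]`, and is in the window `Window (a i) (m i) (p i) (y i) (x i)`, for every `i`, is
`∏ i, δ (a i) (Phi (x i) - Phi (y i)) / m i` times the number of the points of the box at which the values have the
sign of `a i` and absolute value in `(M i, N i]`, up to `ε X ^ D`.
(3) If the forms are all positive at some point, `a i` are of the same sign `s` and `y i < x i`, then at
least `κ X ^ D` points with coordinates in `(-X, X]` have values of sign `s`, of absolute value at most `X`, in the windows.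
(4) Let the forms be as in (3), `m i ≥ 1`, `p i`, `y i < x i` and `s = 1` or `s = -1`. If for infinitely many `X` only `o(X ^ D)` of
the points with coordinates in `(-X, X]` are such that for some `a` with divergent trajectory all values are of sign `s`,
of absolute value at most `X` and in the windows `Window a (m i) (p i) (y i) (x i)`, then no integer of sign `s` has a
divergent trajectory. -/
theorem result :
    (∀ a : ℤ, Divergent a → ∀ x ∈ Class a, (∃ u : ℤ, Shift a x u ∧ ∀ u' : ℤ, Shift a x u' → u' = u) ∧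
      x.sign = a.sign) ∧
    (∃ δ : ℤ → ℝ, (∀ a : ℤ, Divergent a → 0 < δ a ∧ δ a ≤ 1 ∧ HasDensity a.sign (Class a) (δ a)) ∧
      ∀ (D r : ℕ) (Λ : Fin r → Fin D → ℤ), (∀ i, Λ i ≠ 0) →
      (∀ i j, i ≠ j → ∀ b c : ℤ, b • Λ i = c • Λ j → b = 0 ∧ c = 0) →
      ∀ a : Fin r → ℤ, (∀ i, Divergent (a i)) → ∀ m : Fin r → ℕ, (∀ i, 1 ≤ m i) →
      ∀ (p : Fin r → ℤ) (y x : Fin r → ℝ), (∀ i, y i ≤ x i) → ∀ ε : ℝ, 0 < ε →
      ∃ X₀ : ℕ, ∀ X : ℕ, X₀ ≤ X → ∀ (c : Fin r → ℤ) (M N : Fin r → ℕ), (∀ i, M i ≤ N i) → (∀ i, N i ≤ X) →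
      ∀ P P' : Fin D → ℤ, (∀ j, P' j - P j ≤ X) →
        |(Points Λ c (fun i => (a i).sign) M N P P' (fun i => Window (a i) (m i) (p i) (y i) (x i)) : ℝ) -
          (∏ i, δ (a i) * (Phi (x i) - Phi (y i)) / m i) *
            Points Λ c (fun i => (a i).sign) M N P P' (fun _ => Set.univ)| ≤ ε * (X : ℝ) ^ D) ∧
    (∀ (D r : ℕ) (Λ : Fin r → Fin D → ℤ),
      (∀ i j, i ≠ j → ∀ b c : ℤ, b • Λ i = c • Λ j → b = 0 ∧ c = 0) → (∃ v : Fin D → ℤ, ∀ i, 0 < ∑ j, Λ i j * v j) →
      ∀ s : ℤ, (s = 1 ∨ s = -1) → ∀ m : Fin r → ℕ, (∀ i, 1 ≤ m i) →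
      ∀ (p : Fin r → ℤ) (y x : Fin r → ℝ), (∀ i, y i < x i) →
      (∀ a : Fin r → ℤ, (∀ i, Divergent (a i) ∧ (a i).sign = s) → ∃ κ : ℝ, 0 < κ ∧ ∃ X₀ : ℕ, ∀ X : ℕ, X₀ ≤ X →
        κ * (X : ℝ) ^ D ≤ ({v : Fin D → ℤ | (∀ j, -(X : ℤ) < v j ∧ v j ≤ X) ∧
          ∀ i, (∑ j, Λ i j * v j) ∈ Window (a i) (m i) (p i) (y i) (x i) ∧
            0 < s * ∑ j, Λ i j * v j ∧ s * ∑ j, Λ i j * v j ≤ X}.ncard : ℝ)) ∧
      (∀ ψ : ℕ → ℝ, Tendsto ψ atTop (𝓝 0) →
        (∃ᶠ X : ℕ in atTop, ({v : Fin D → ℤ | (∀ j, -(X : ℤ) < v j ∧ v j ≤ X) ∧ ∃ a : ℤ, Divergent a ∧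
          ∀ i, (∑ j, Λ i j * v j) ∈ Window a (m i) (p i) (y i) (x i) ∧
            0 < s * ∑ j, Λ i j * v j ∧ s * ∑ j, Λ i j * v j ≤ X}.ncard : ℝ) ≤ ψ X * (X : ℝ) ^ D) →
        ∀ n : ℤ, 0 < s * n → ¬ Divergent n)) := by
  refine ⟨fun a ha x hx => ?_, ⟨dens, fun a ha => ?_, ?_⟩, fun D r Λ hΛ hv s hs m hm p y x hyx => ⟨?_, ?_⟩⟩
  · obtain ⟨u, hu⟩ := hx
    exact ⟨⟨u, hu, fun u' hu' => shift_unique ha hu' hu⟩, sign_shift hu⟩
  · obtain ⟨h1, h2, h3, -⟩ := dens_spec ha
    exact ⟨h1, h2, h3⟩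
  · intro D r Λ h0 hΛ a ha m hm p y x hyx ε hε
    exact joint D r Λ h0 hΛ a ha m hm p y x hyx ε hε
  · intro a ha
    exact many D r Λ hΛ hv s hs a ha m hm p y x hyx
  · intro ψ hψ h n hn hdn
    have hsn : n.sign = s := by
      rcases hs with rfl | rfl
      · exact Int.sign_eq_one_of_pos (by omega)
      · exact Int.sign_eq_neg_one_of_neg (by omega)
    obtain ⟨κ, hκ, X0, h1⟩ := many D r Λ hΛ hv s hs (fun _ => n) (fun _ => ⟨hdn, hsn⟩) m hm p y x hyx
    have h2 : ∀ᶠ X : ℕ in atTop, ψ X < κ := (tendsto_order.1 hψ).2 κ hκ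
    obtain ⟨X, h3, h4, h5⟩ := (h.and_eventually (h2.and (eventually_ge_atTop (X0 + 1)))).exists
    have h6 := h1 X (by omega)
    have hX : (0 : ℝ) < X := by exact_mod_cast (by omega : 0 < X)
    have h7 : ({v : Fin D → ℤ | (∀ j, -(X : ℤ) < v j ∧ v j ≤ X) ∧
          ∀ i, (∑ j, Λ i j * v j) ∈ Window n (m i) (p i) (y i) (x i) ∧
            0 < s * ∑ j, Λ i j * v j ∧ s * ∑ j, Λ i j * v j ≤ X}.ncard : ℝ) ≤
        ({v : Fin D → ℤ | (∀ j, -(X : ℤ) < v j ∧ v j ≤ X) ∧ ∃ a : ℤ, Divergent a ∧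
          ∀ i, (∑ j, Λ i j * v j) ∈ Window a (m i) (p i) (y i) (x i) ∧
            0 < s * ∑ j, Λ i j * v j ∧ s * ∑ j, Λ i j * v j ≤ X}.ncard : ℝ) := by
      norm_cast
      apply Set.ncard_le_ncard
      · rintro v ⟨b1, b2⟩
        exact ⟨b1, n, hdn, b2⟩
      · apply (Set.Finite.pi' (fun _ : Fin D => Set.finite_Ioc (-(X : ℤ)) X)).subset
        rintro v ⟨b1, -⟩ j
        exact b1 j
    have h8 : ψ X * (X : ℝ) ^ D < κ * (X : ℝ) ^ D := mul_lt_mul_of_pos_right h4 (by positivity)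
    linarith

end Pool.Agent.Results.MP_ff4775_nt.JointShiftLaws
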