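import Pool.Agent.Results.MP_ff4775_nt.JointShiftLaws
import Pool.Agent.Q179.RE.Rec

set_option autoImplicit false

/-!
# Divergent trajectories of the `3x+1` map: multiple recurrence along the integers with prescribed time shift

Let the trajectory of `a` be divergent. If the trajectory of `z` meets it, `T^k z = T^j a`, then the time shift
`u = k - j` of `z` relative to `a` does not depend on the choice of `k` and `j`. Let `W` be the set of the integers `z`
whose trajectories meet the trajectory of `a` with a time shift in a given residue class modulo `m` and in a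
given window of the normal law. Let `R 1, ..., R k` be commuting invertible measure preserving transformations of a
probability space, and `f 1, ..., f k` bounded measurable functions. Then the averages over `n ≤ N` of
`(1_W(s n) - w) f 1 (R 1 ^ n x) ⋯ f k (R k ^ n x)`, where `w` is the density of `W`, are small in quadratic mean, uniformly
in the space, the transformations and the functions. So the multiple ergodic averages along the elements of `W` have
the same limit as those along all integers, every set of positive measure returns along a positive proportion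
of the elements of `W`, and there are no divergent trajectories if this fails in one dynamical system.

Method: the indicator function of `W` minus its density has small Gowers norms (`Pool/Agent/Q179/DV/Gow.lean`, after the
starting files `W36/GK`), and the generalised von Neumann theorem of `Pool/Agent/Q49/ME` (this run).
-/

namespace Pool.Agent.Results.MP_ff4775_nt.RecurrenceWithShifts

open Filter Topology MeasureTheory

/-- The map `T` of the problem. -/
def T (n : ℤ) : ℤ := if n % 2 = 0 then n / 2 else (3 * n + 1) / 2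

/-- The trajectory of `n` is divergent. -/
def Divergent (n : ℤ) : Prop := Tendsto (fun k : ℕ => |T^[k] n|) atTop atTop

/-- The trajectory of `x` meets that of `a` with the time shift `u`: after `k` steps it is at the point where the
trajectory of `a` is after `j` steps, and `u = k - j`. -/
def Shift (a x u : ℤ) : Prop := ∃ k j : ℕ, T^[k] x = T^[j] a ∧ u = (k : ℤ) - j

/-- The integers whose trajectories meet the trajectory of `a`. -/
def Class (a : ℤ) : Set ℤ := {x | ∃ u : ℤ, Shift a x u}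

/-- Among the integers of sign `s` the set `S` has natural density `δ`. -/
def HasDensity (s : ℤ) (S : Set ℤ) (δ : ℝ) : Prop :=
  Tendsto (fun N : ℕ => ({n : ℤ | 0 < s * n ∧ s * n ≤ N ∧ n ∈ S}.ncard : ℝ) / N) atTop (𝓝 δ)

/-- `2 / log (4/3) * log |z| + x * log 3 * √(2 log |z| / (log (4/3))^3)` -/
noncomputable def bound (x : ℝ) (z : ℤ) : ℝ :=
  2 / Real.log (4 / 3) * Real.log |(z : ℝ)|
    + x * (Real.log 3 * Real.sqrt (2 * Real.log |(z : ℝ)| / Real.log (4 / 3) ^ 3))

/-- The distribution function of the standard normal law. -/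
noncomputable def Phi (x : ℝ) : ℝ :=
  ProbabilityTheory.cdf (ProbabilityTheory.gaussianReal 0 1) x

/-- The integers `z` whose trajectories meet the trajectory of `a` with a time shift `u` such that
`bound y z < u ≤ bound x z` and `u ≡ p` modulo `m`. -/
def Window (a : ℤ) (m : ℕ) (p : ℤ) (y x : ℝ) : Set ℤ :=
  {z : ℤ | ∃ u : ℤ, Shift a z u ∧ bound y z < u ∧ (u : ℝ) ≤ bound x z ∧ u ≡ p [ZMOD m]}

open Pool.Agent.Q179.DV (GF shG)
open Pool.Agent.Q179.RE (System Bounded ind GUs smallS_mean smallS_ret manyS oneS limitsS ind_count ret_mem ret_lower ind01)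

/-! ### proofs -/

open Pool.Agent.Results.MP_ff4775_nt.JointShiftLaws (sign_cases dens dens_spec window_eq phi_eq phi_lt)

theorem GUs_window {a : ℤ} (ha : Divergent a) {m : ℕ} (hm : 1 ≤ m) (p : ℤ) {y x : ℝ} (h : y ≤ x) :
    GUs a.sign (Window a m p y x) (dens a * (Phi x - Phi y) / m) := by
  intro k
  have hs := sign_cases ha
  obtain ⟨h0, h1, -, h3⟩ := dens_spec ha
  have h4 := Pool.Agent.W36.GK.GN_all (GF.hyp_WS hs h0.le h1 hm (h3 hs m hm) p h) k
  rw [window_eq ha hs rfl, phi_eq, phi_eq] at h4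
  exact h4

theorem dens_pos {a : ℤ} (ha : Divergent a) {m : ℕ} (hm : 1 ≤ m) {y x : ℝ} (h : y < x) :
    0 < dens a * (Phi x - Phi y) / m := by
  have h1 := (dens_spec ha).1
  have h2 : Phi y < Phi x := phi_lt h
  have h3 : (0 : ℝ) < m := by exact_mod_cast hm
  have h4 : 0 < Phi x - Phi y := by linarith
  positivity

theorem sign_of {s n : ℤ} (hs : s = 1 ∨ s = -1) (hn : 0 < s * n) : n.sign = s := by
  rcases hs with rfl | rfl
  · exact Int.sign_eq_one_of_pos (by omega)
  · exact Int.sign_eq_neg_one_of_neg (by omega)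

theorem ind_mono (s : ℤ) {S S' : Set ℤ} (h : S ⊆ S') (n : ℕ) : ind s S n ≤ ind s S' n := by
  unfold ind
  by_cases h1 : s * (n : ℤ) ∈ S
  · rw [Set.indicator_of_mem h1, Set.indicator_of_mem (h h1)]
  · rw [Set.indicator_of_notMem h1]
    exact Set.indicator_nonneg (fun _ _ => zero_le_one) _

/-- MULTIPLE RECURRENCE ALONG THE INTEGERS WITH PRESCRIBED TIME SHIFT OF A DIVERGENT TRAJECTORY. The class of an integer
`a` with divergent trajectory has among the integers of the sign `s` of `a` a natural density `δ a > 0`. Let `m ≥ 1`, `p`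
be an integer, `y ≤ x`, `W = Window a m p y x` and `w = δ a (Phi x - Phi y) / m`.
(1) For all `k` and `ε > 0`, if `N` is large, then for every system `Y` of `k` commuting invertible measure preserving
transformations and all measurable `f 1, ..., f k` with values in the unit disc, the mean over `n ≤ N` of
`(1_W(s n) - w) f 1 (R 1 ^ n x) ⋯ f k (R k ^ n x)` has a norm at most `ε` in `L²`; and the sum over `n ≤ N` of
`1_W(s n) - w` times the measure of `A₀ ∩ R 1 ^ (-n) A 1 ∩ ... ∩ R k ^ (-n) A k` is at most `ε N` in absolute value.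
(2) If the multiple ergodic averages converge in `L²` (they do by a theorem of Tao), to `L`, then the averages
over `n ≤ N` of the same products for `s n ∈ W`, and `0` otherwise, converge to `w L` in `L²`.
(3) Let `y < x` and `μ₀ > 0`. If `N` is large, then for every invertible measure preserving transformation and every
measurable set `A` of measure at least `μ₀`, at least `w μ₀² N / 8` of the `n ≤ N` are such that `s n ∈ W` and
`A ∩ R ^ (-n) A` has positive measure.
(4) Let `s = 1` or `s = -1`, `m ≥ 1`, `y < x`. If for infinitely many `N` there are a system and sets such that the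
sum over `n ≤ N` of the measures of `A₀ ∩ R 1 ^ (-n) A 1 ∩ ... ∩ R k ^ (-n) A k` is at least `κ N`, and `o(N)` for
the sum over the `n` with `s n` in a window `Window a m p y x` of some `a` with divergent trajectory, then no integer of
sign `s` has a divergent trajectory. The same is true if for one invertible measure preserving transformation, one set
`A` of positive measure and infinitely many `N` only `o(N)` of the `n ≤ N` for which `A ∩ R ^ (-n) A` has
positive measure are such that `s n` is in such a window. -/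
theorem result :
    ∃ δ : ℤ → ℝ, (∀ a : ℤ, Divergent a → 0 < δ a ∧ δ a ≤ 1 ∧ HasDensity a.sign (Class a) (δ a)) ∧
    (∀ a : ℤ, Divergent a → ∀ m : ℕ, 1 ≤ m → ∀ (p : ℤ) (y x : ℝ), y ≤ x →
      (∀ (k : ℕ) (ε : ℝ), 0 < ε → ∃ N₀ : ℕ, ∀ N : ℕ, N₀ ≤ N → ∀ (X : Type) [MeasurableSpace X] (Y : System k X),
        (∀ f : Fin k → X → ℂ, Bounded f →
          ∫ z, ‖(∑ n ∈ Finset.Icc 1 N, ((ind a.sign (Window a m p y x) n - δ a * (Phi x - Phi y) / m : ℝ) : ℂ) *
            Y.P f n z) / N‖ ^ 2 ∂Y.μ ≤ ε ^ 2) ∧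
        ∀ (A₀ : Set X) (A : Fin k → Set X), MeasurableSet A₀ → (∀ i, MeasurableSet (A i)) →
          |∑ n ∈ Finset.Icc 1 N, (ind a.sign (Window a m p y x) n - δ a * (Phi x - Phi y) / m) * Y.ret A₀ A n| ≤ ε * N) ∧
      (∀ (k : ℕ) (X : Type) [MeasurableSpace X] (Y : System k X) (f : Fin k → X → ℂ), Bounded f → ∀ L : X → ℂ,
        MemLp L 2 Y.μ →
        Tendsto (fun N : ℕ => ∫ z, ‖(∑ n ∈ Finset.Icc 1 N, Y.P f n z) / N - L z‖ ^ 2 ∂Y.μ) atTop (𝓝 0) →
        Tendsto (fun N : ℕ => ∫ z, ‖(∑ n ∈ Finset.Icc 1 N, (ind a.sign (Window a m p y x) n : ℂ) * Y.P f n z) / N -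
          ((δ a * (Phi x - Phi y) / m : ℝ) : ℂ) * L z‖ ^ 2 ∂Y.μ) atTop (𝓝 0)) ∧
      (y < x → ∀ μ₀ : ℝ, 0 < μ₀ → ∃ N₀ : ℕ, ∀ N : ℕ, N₀ ≤ N → ∀ (X : Type) [MeasurableSpace X] (Y : System 1 X)
        (A : Set X), MeasurableSet A → μ₀ ≤ Y.μ.real A → δ a * (Phi x - Phi y) / m * μ₀ ^ 2 / 8 * N ≤
          ({n : ℕ | 1 ≤ n ∧ n ≤ N ∧ 0 < Y.ret A (fun _ => A) n ∧ a.sign * n ∈ Window a m p y x}.ncard : ℝ))) ∧
    (∀ s : ℤ, (s = 1 ∨ s = -1) → ∀ m : ℕ, 1 ≤ m → ∀ (p : ℤ) (y x : ℝ), y < x → ∀ ψ : ℕ → ℝ, Tendsto ψ atTop (𝓝 0) →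
      (∀ (k : ℕ) (κ : ℝ), 0 < κ →
        (∃ᶠ N : ℕ in atTop, ∃ (X : Type) (_ : MeasurableSpace X) (Y : System k X) (A₀ : Set X) (A : Fin k → Set X),
          MeasurableSet A₀ ∧ (∀ i, MeasurableSet (A i)) ∧ κ * N ≤ ∑ n ∈ Finset.Icc 1 N, Y.ret A₀ A n ∧
          ∑ n ∈ Finset.Icc 1 N, ind s {z | ∃ a : ℤ, Divergent a ∧ z ∈ Window a m p y x} n * Y.ret A₀ A n ≤ ψ N * N) →
        ∀ n : ℤ, 0 < s * n → ¬ Divergent n) ∧
      ∀ (X : Type) [MeasurableSpace X] (Y : System 1 X) (A : Set X), MeasurableSet A → 0 < Y.μ A →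
        (∃ᶠ N : ℕ in atTop, ({n : ℕ | 1 ≤ n ∧ n ≤ N ∧ 0 < Y.ret A (fun _ => A) n ∧
          s * n ∈ {z | ∃ a : ℤ, Divergent a ∧ z ∈ Window a m p y x}}.ncard : ℝ) ≤ ψ N * N) →
        ∀ n : ℤ, 0 < s * n → ¬ Divergent n) := by
  refine ⟨dens, fun a ha => ?_, fun a ha m hm p y x hyx => ⟨fun k ε hε => ?_, ?_, ?_⟩,
    fun s hs m hm p y x hyx ψ hψ => ⟨?_, ?_⟩⟩
  · obtain ⟨h1, h2, h3, -⟩ := dens_spec ha
    exact ⟨h1, h2, h3⟩
  · obtain ⟨N1, -, h1⟩ := smallS_mean (GUs_window ha hm p hyx) k hε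
    obtain ⟨N2, -, h2⟩ := smallS_ret (GUs_window ha hm p hyx) k hε
    exact ⟨N1 + N2, fun N hN X _ Y => ⟨fun f hf => h1 N (by omega) X Y f hf,
      fun A₀ A hA₀ hA => h2 N (by omega) X Y A₀ A hA₀ hA⟩⟩
  · intro k X _ Y f hf L hL h
    exact limitsS (GUs_window ha hm p hyx) Y hf hL h
  · intro hlt μ₀ hμ₀
    obtain ⟨N0, -, h1⟩ := oneS (GUs_window ha hm p hyx) (dens_pos ha hm hlt) hμ₀
    exact ⟨N0, fun N hN X _ Y A hA hA2 => h1 N hN X Y A hA hA2⟩
  · intro k κ hκ h n hn hdn
    have hsn := sign_of hs hn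
    have hw := dens_pos hdn hm hyx
    have hG := GUs_window hdn hm p hyx.le
    rw [hsn] at hG
    obtain ⟨N0, -, H⟩ := manyS hG hw k hκ
    have h1 : ∀ᶠ N : ℕ in atTop, ψ N < dens n * (Phi x - Phi y) / m * κ / 2 := (tendsto_order.1 hψ).2 _ (by positivity)
    obtain ⟨N, ⟨X, _, Y, A₀, A, hA₀, hA, h2, h3⟩, h4, h5⟩ := (h.and_eventually (h1.and (eventually_ge_atTop (N0 + 1)))).exists
    have h6 := H N (by omega) X Y A₀ A hA₀ hA h2
    have hNp : (0 : ℝ) < N := by exact_mod_cast (by omega : 0 < N)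
    have h7 : ψ N * N < dens n * (Phi x - Phi y) / m * κ / 2 * N := mul_lt_mul_of_pos_right h4 hNp
    have h8 : ∑ i ∈ Finset.Icc 1 N, ind s (Window n m p y x) i * Y.ret A₀ A i ≤
        ∑ i ∈ Finset.Icc 1 N, ind s {z | ∃ a : ℤ, Divergent a ∧ z ∈ Window a m p y x} i * Y.ret A₀ A i := by
      apply Finset.sum_le_sum
      intro i _
      have hsub : Window n m p y x ⊆ {z | ∃ a : ℤ, Divergent a ∧ z ∈ Window a m p y x} := fun z hz => ⟨n, hdn, hz⟩
      exact mul_le_mul_of_nonneg_right (ind_mono s hsub i) (ret_mem Y A₀ A i).1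
    linarith
  · intro X _ Y A hA hpos h n hn hdn
    have := Y.prob
    have hmA : 0 < Y.μ.real A := by
      unfold Measure.real
      exact ENNReal.toReal_pos hpos.ne' (measure_ne_top _ _)
    have hsn := sign_of hs hn
    have hw := dens_pos hdn hm hyx
    have hG := GUs_window hdn hm p hyx.le
    rw [hsn] at hG
    obtain ⟨N0, -, H⟩ := oneS hG hw hmA
    have h1 : ∀ᶠ N : ℕ in atTop, ψ N < dens n * (Phi x - Phi y) / m * Y.μ.real A ^ 2 / 8 :=
      (tendsto_order.1 hψ).2 _ (by positivity)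
    obtain ⟨N, h3, h4, h5⟩ := (h.and_eventually (h1.and (eventually_ge_atTop (N0 + 1)))).exists
    have h6 := H N (by omega) X Y A hA le_rfl
    have hNp : (0 : ℝ) < N := by exact_mod_cast (by omega : 0 < N)
    have h7 : ψ N * N < dens n * (Phi x - Phi y) / m * Y.μ.real A ^ 2 / 8 * N := mul_lt_mul_of_pos_right h4 hNp
    have h8 : ({i : ℕ | 1 ≤ i ∧ i ≤ N ∧ 0 < Y.ret A (fun _ => A) i ∧ s * i ∈ Window n m p y x}.ncard : ℝ) ≤
        ({i : ℕ | 1 ≤ i ∧ i ≤ N ∧ 0 < Y.ret A (fun _ => A) i ∧
          s * i ∈ {z | ∃ a : ℤ, Divergent a ∧ z ∈ Window a m p y x}}.ncard : ℝ) := by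
      norm_cast
      apply Set.ncard_le_ncard
      · rintro i ⟨b1, b2, b3, b4⟩
        exact ⟨b1, b2, b3, n, hdn, b4⟩
      · apply (Set.finite_Icc 1 N).subset
        rintro i ⟨b1, b2, -⟩
        exact ⟨b1, b2⟩
    linarith

end Pool.Agent.Results.MP_ff4775_nt.RecurrenceWithShifts
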