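import Pool.Agent.Q179.DV.Shift
import Pool.Agent.Results.MP_ff4775_nt.DivergentAsymptotics
import Pool.Agent.Results.MP_edb5be_nt.EntranceLawsArithmetic

set_option autoImplicit false

/-!
# The time shift between a divergent trajectory of the `3x+1` map and the trajectories merging with it

Let the trajectory of `a` be divergent. If the trajectory of `x` meets it, `T^k x = T^j a`, then `u = k - j` and the
difference `v` of the numbers of odd terms before do not depend on the choice of `k` and `j`: the class of `a` is graded.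
The class is near to the set of the numbers `W 2 ^ u / 3 ^ v`. For the `n` with `s n` in the class the shift
`u` satisfies a central limit theorem and `(u, v)` is equidistributed modulo every `m`; this remains
true in all arithmetical test sets (given by real additive functions, numbers of prime factors in sets of primes,
the largest prime factors). In every test set of positive proportion the divergent trajectories have the same
proportion as among all integers; so if almost all members of some test sets of positive proportion do not diverge,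
there is no divergent trajectory of the sign considered.
-/

namespace Pool.Agent.Results.MP_ff4775_nt.TimeShiftLaws

open Filter Topology
open Pool.Agent.Results.MP_edb5be_nt.EntranceLawsArithmetic (Multiplicative Additive FewValues top IsTest Count
  Independent bound independent_of laws count_eq odds_eq)

/-- the `3x+1` map on the integers -/
def T (x : ℤ) : ℤ := if x % 2 = 0 then x / 2 else (3 * x + 1) / 2

/-- the trajectory of `x` is divergent -/
def Divergent (x : ℤ) : Prop := Tendsto (fun k : ℕ => |T^[k] x|) atTop atTop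

/-- the number of odd terms among `x, T x, ..., T^(k-1) x` -/
def odds (k : ℕ) (x : ℤ) : ℕ := ((Finset.range k).filter fun i => T^[i] x % 2 = 1).card

/-- The trajectory of `x` meets the trajectory of `a`. -/
def Meets (a x : ℤ) : Prop := ∃ k j : ℕ, T^[k] x = T^[j] a

/-- The trajectory of `x` meets the trajectory of `a` with the shift `(u, v)`: `T^k x = T^j a`, `u = k - j`, and `v` is the
number of odd terms among the first `k` terms of the trajectory of `x` minus the number of odd terms among the first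
`j` terms of the trajectory of `a`. -/
def Shift (a x u v : ℤ) : Prop := ∃ k j : ℕ, T^[k] x = T^[j] a ∧ (k : ℤ) - j = u ∧ (odds k x : ℤ) - odds j a = v

/-- `s n` meets the trajectory of `a` with a shift `(u, v)` such that `u ≤ bound x n` and `u ≡ p`, `v ≡ q` modulo `m`. -/
def Level (s a : ℤ) (m : ℕ) (p q : ℤ) (x : ℝ) (n : ℕ) : Prop :=
  ∃ u v : ℤ, Shift a (s * n) u v ∧ (u : ℝ) ≤ bound x n ∧ u ≡ p [ZMOD m] ∧ v ≡ q [ZMOD m]

/-- The distribution function of the standard normal law. -/
noncomputable def Phi (x : ℝ) : ℝ :=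
  ProbabilityTheory.cdf (ProbabilityTheory.gaussianReal 0 1) x

theorem od_eq (k : ℕ) (x : ℤ) : Pool.Agent.H499R2.LT.od 1 k x = (odds k x : ℤ) := odds_eq k x

theorem shift_iff {a x u v : ℤ} : Shift a x u v ↔ Pool.Agent.Q179.DV.Sh a x u v := by
  unfold Shift Pool.Agent.Q179.DV.Sh
  refine exists_congr fun k => exists_congr fun j => ?_
  rw [od_eq, od_eq]
  exact Iff.rfl

theorem meets_iff {a x : ℤ} : Meets a x ↔ x ∈ Pool.Agent.Q179.DV.Mt a := by
  constructor
  · rintro ⟨k, j, h⟩
    exact ⟨_, _, Pool.Agent.Q179.DV.hit_Sh h⟩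
  · rintro ⟨u, v, k, j, h, _⟩
    exact ⟨k, j, h⟩

theorem div_step (n : ℤ) : Divergent n ↔ Divergent (T n) := by
  unfold Divergent
  have : (fun k : ℕ => |T^[k] (T n)|) = fun k : ℕ => (fun k : ℕ => |T^[k] n|) (k + 1) := by
    funext k
    simp only [Function.iterate_succ_apply]
  rw [this, tendsto_add_atTop_iff_nat (f := fun k : ℕ => |T^[k] n|) 1]

theorem div_iter (k : ℕ) (n : ℤ) : Divergent n ↔ Divergent (T^[k] n) := by
  induction k generalizing n with
  | zero => exact Iff.rfl
  | succ k ih => rw [Function.iterate_succ_apply, ← ih, ← div_step]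

theorem inj_of {a : ℤ} (h : Divergent a) : Function.Injective (fun j : ℕ => (Pool.Agent.H499R2.ND.Td 1)^[j] a) :=
  DivergentAsymptotics.injective_of_tendsto h

theorem odds_add (j i : ℕ) (x : ℤ) : odds (j + i) x = odds j x + odds i (T^[j] x) := by
  have h := Pool.Agent.H499R2.LT.od_add 1 j i x
  rw [od_eq, od_eq, od_eq] at h
  exact_mod_cast h

theorem odds_step (x : ℤ) : (odds 1 x : ℤ) = x % 2 := by
  unfold odds
  rcases Int.emod_two_eq_zero_or_one x with h | h
  · rw [Finset.range_one, Finset.filter_singleton]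
    simp [h]
  · rw [Finset.range_one, Finset.filter_singleton]
    simp [h]

/-- the class is near to a grid -/
theorem grid : ∃ A : ℝ, ∀ a : ℤ, Divergent a → ∃ W : ℝ, 0 < W ∧ ∀ x u v : ℤ, Shift a x u v →
    ∀ N : ℝ, 1 ≤ N → (∀ j : ℕ, N ≤ |((T^[j] x : ℤ) : ℝ)|) →
    |Real.log |(x : ℝ)| - (Real.log W + u * Real.log 2 - v * Real.log 3)| ≤ A * N ^ (-(0.049 : ℝ)) := by
  obtain ⟨A, hA⟩ := DivergentAsymptotics.result.1 0.951 DivergentAsymptotics.result.2 (by norm_num)
  refine ⟨A, fun a ha => ?_⟩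
  obtain ⟨wa, hwa0, hwa, -⟩ := hA a ha
  refine ⟨|wa|, abs_pos.2 hwa0, fun x u v hs N hN hmin => ?_⟩
  obtain ⟨k, j, h1, h2, h3⟩ := hs
  have hx : Divergent x := by
    rw [div_iter k, h1, ← div_iter]; exact ha
  obtain ⟨wx, hwx0, hwx, hwx2⟩ := hA x hx
  have h4 := hwx2 0 N hN (fun j _ => hmin j)
  have h5 : (2 : ℝ) ^ 0 * ((DivergentAsymptotics.T^[0] x : ℤ) : ℝ) / 3 ^ DivergentAsymptotics.odd 0 x = x := by
    have : DivergentAsymptotics.odd 0 x = 0 := rfl
    rw [this]; simp
  rw [h5, show (0.951 : ℝ) - 1 = -0.049 by norm_num] at h4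
  -- the relation between the limits
  have h6 : wx = wa * ((2 : ℝ) ^ k / 2 ^ j * (3 ^ odds j a / 3 ^ odds k x)) := by
    have t1 : Tendsto (fun i : ℕ => (2 : ℝ) ^ (i + k) * ((T^[i + k] x : ℤ) : ℝ) / 3 ^ odds (i + k) x) atTop (𝓝 wx) :=
      hwx.comp (tendsto_add_atTop_nat k)
    have t2 : Tendsto (fun i : ℕ => (2 : ℝ) ^ (i + j) * ((T^[i + j] a : ℤ) : ℝ) / 3 ^ odds (i + j) a) atTop (𝓝 wa) :=
      hwa.comp (tendsto_add_atTop_nat j)
    have t3 := t2.mul_const ((2 : ℝ) ^ k / 2 ^ j * (3 ^ odds j a / 3 ^ odds k x))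
    refine tendsto_nhds_unique t1 (t3.congr fun i => ?_)
    have e1 : T^[i + k] x = T^[i] (T^[j] a) := by rw [Function.iterate_add_apply, h1]
    have e2 : T^[i + j] a = T^[i] (T^[j] a) := by rw [Function.iterate_add_apply]
    have e3 : odds (i + k) x = odds k x + odds i (T^[j] a) := by rw [Nat.add_comm, odds_add, h1]
    have e4 : odds (i + j) a = odds j a + odds i (T^[j] a) := by rw [Nat.add_comm, odds_add]
    rw [e1, e2, e3, e4, pow_add, pow_add, pow_add, pow_add]
    field_simp
  have hp : (0 : ℝ) < 2 ^ k / 2 ^ j * (3 ^ odds j a / 3 ^ odds k x) := by positivity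
  have h7 : Real.log |wx| = Real.log |wa| + u * Real.log 2 - v * Real.log 3 := by
    have q1 : (2 : ℝ) ^ k ≠ 0 := by positivity
    have q2 : (2 : ℝ) ^ j ≠ 0 := by positivity
    have q3 : (3 : ℝ) ^ odds j a ≠ 0 := by positivity
    have q4 : (3 : ℝ) ^ odds k x ≠ 0 := by positivity
    rw [h6, abs_mul, abs_of_pos hp, Real.log_mul (abs_pos.2 hwa0).ne' hp.ne',
      Real.log_mul (div_ne_zero q1 q2) (div_ne_zero q3 q4), Real.log_div q1 q2, Real.log_div q3 q4,
      Real.log_pow, Real.log_pow, Real.log_pow, Real.log_pow, ← h2, ← h3]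
    push_cast
    ring
  rw [← h7, abs_sub_comm]
  exact h4

theorem inv_div : Pool.Agent.H499R2.ND.Inv 1 {n : ℤ | Divergent n} := fun n => div_step n

/-- THE TIME SHIFTS OF A DIVERGENT TRAJECTORY. (1) The integers `x` whose trajectory meets the divergent trajectory of
`a` have exactly one shift `(u, v)`, and `T x` has the shift `(u - 1, v - x % 2)`. (2) There are an absolute constant `A`
and for every divergent `a` a number `W > 0` such that for all `x` with the shift `(u, v)` the logarithm of `|x|` differs from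
that of `W 2^u / 3^v` by at most `A N ^ (-0.049)`, if the trajectory of `x` does not meet `(-N, N)`. (3) Let `s = 1` or
`s = -1` and let `a` be an integer of sign `s` with divergent trajectory. There is `0 < δ ≤ 1` such that
independently of the arithmetical nature (in the sense of `Independent`) the `n` for which `s n` meets the trajectory
of `a` have the frequency `δ`, and for all `m ≥ 1`, `p`, `q` and real `x` those with a shift `u ≤ bound x n`, `u ≡ p`,
`v ≡ q` modulo `m` have the frequency `δ Phi x / m ^ 2`; so if the proportion of the `n ≤ N` in the test set `E N` tends to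
`τ`, the proportion of those which moreover are of this kind tends to `δ Phi x / m ^ 2 * τ`. (4) The `n` such that `s n` has a
divergent trajectory have a frequency independently of the arithmetical nature; it is zero if and only if there is no
divergent trajectory of sign `s`. (5) If for some test sets `E N` and some `κ > 0`, for infinitely many `N`, at least `κ N` of
the `n ≤ N` are in `E N` and for almost all of these `s n` has no divergent trajectory, then no integer of sign `s`
has a divergent trajectory. -/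
theorem result :
    (∀ a : ℤ, Divergent a → ∀ x : ℤ, Meets a x → ∃ u v : ℤ, Shift a x u v ∧
      (∀ u' v' : ℤ, Shift a x u' v' → u' = u ∧ v' = v) ∧ Shift a (T x) (u - 1) (v - x % 2)) ∧
    (∃ A : ℝ, ∀ a : ℤ, Divergent a → ∃ W : ℝ, 0 < W ∧ ∀ x u v : ℤ, Shift a x u v →
      ∀ N : ℝ, 1 ≤ N → (∀ j : ℕ, N ≤ |((T^[j] x : ℤ) : ℝ)|) →
      |Real.log |(x : ℝ)| - (Real.log W + u * Real.log 2 - v * Real.log 3)| ≤ A * N ^ (-(0.049 : ℝ))) ∧
    (∀ s : ℤ, (s = 1 ∨ s = -1) → ∀ a : ℤ, 0 < s * a → Divergent a → ∃ δ : ℝ, 0 < δ ∧ δ ≤ 1 ∧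
      Independent (fun n => Meets a (s * n)) δ ∧
      ∀ (m : ℕ) (p q : ℤ) (x : ℝ), 1 ≤ m → Independent (Level s a m p q x) (δ * Phi x / m ^ 2) ∧
        ∀ (d r k : ℕ) (E : ℕ → Set ℕ), (∀ N, IsTest d r k (E N)) → ∀ τ : ℝ,
          Tendsto (fun N : ℕ => (Count N (fun _ => True) (E N) : ℝ) / N) atTop (𝓝 τ) →
          Tendsto (fun N : ℕ => (Count N (Level s a m p q x) (E N) : ℝ) / N) atTop (𝓝 (δ * Phi x / m ^ 2 * τ))) ∧
    (∀ s : ℤ, (s = 1 ∨ s = -1) → ∃ δ : ℝ, 0 ≤ δ ∧ δ ≤ 1 ∧ Independent (fun n => Divergent (s * n)) δ ∧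
      (δ = 0 ↔ ∀ x : ℤ, 0 < s * x → ¬ Divergent x)) ∧
    (∀ s : ℤ, (s = 1 ∨ s = -1) → ∀ (d r k : ℕ) (E : ℕ → Set ℕ), (∀ N, IsTest d r k (E N)) →
      ∀ (κ : ℝ) (ψ : ℕ → ℝ), 0 < κ → Tendsto ψ atTop (𝓝 0) →
      (∃ᶠ N : ℕ in atTop, κ * N ≤ Count N (fun _ => True) (E N) ∧
        (Count N (fun n => Divergent (s * n)) (E N) : ℝ) ≤ ψ N * N) →
      ∀ x : ℤ, 0 < s * x → ¬ Divergent x) := by
  classical
  have hD : ∀ s : ℤ, (s = 1 ∨ s = -1) → ∃ δ : ℝ, 0 ≤ δ ∧ δ ≤ 1 ∧ Independent (fun n => Divergent (s * n)) δ ∧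
      (δ = 0 ↔ ∀ x : ℤ, 0 < s * x → ¬ Divergent x) := by
    intro s hs
    obtain ⟨δ, h0, h1, hδ⟩ := Pool.Agent.H499R2.ND.dens_side odd_one isCoprime_one_left hs inv_div
    refine ⟨δ, h0, h1, independent_of (Pool.Agent.Q179.DV.inv_RX hs inv_div h0 h1
      (Pool.Agent.H499R2.LT.dn_side hδ)), ?_, ?_⟩
    · intro h x hx hdx
      have := Pool.Agent.H499R2.ND.one_pos hs inv_div (a := x) hdx hx hδ
      linarith
    · intro h
      exact Pool.Agent.H499R2.ND.one_eq_zero hs (S := {n | Divergent n}) (fun a ha h0 => h a h0 ha) hδ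
  refine ⟨fun a ha x hx => ?_, grid, fun s hs a hsa ha => ?_, hD, fun s hs d r k E hE κ ψ hκ hψ h => ?_⟩
  · obtain ⟨u, v, huv⟩ := meets_iff.1 hx
    refine ⟨u, v, shift_iff.2 huv, fun u' v' h => Pool.Agent.Q179.DV.Sh_unique (inj_of ha) (shift_iff.1 h) huv, ?_⟩
    have h := Pool.Agent.Q179.DV.Sh_step.2 huv
    have e : x % 2 = (if x % 2 = 0 then 0 else 1 : ℤ) := by
      rcases Int.emod_two_eq_zero_or_one x with h | h
      · rw [if_pos h, h]
      · rw [if_neg (by omega), h]
    rw [shift_iff, e]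
    exact h
  · obtain ⟨δ, h0, h1, hpos, -, hM, hL⟩ := Pool.Agent.Q179.DV.class_RX hs (a := a) (inj_of ha)
    refine ⟨δ, hpos hsa, h1, independent_of (Pool.Agent.Q49.AF.RX_congr (fun n _ => meets_iff.symm) hM),
      fun m p q x hm => ?_⟩
    have hLv : Independent (Level s a m p q x) (δ * Phi x / m ^ 2) := by
      have h6 := hL x m p q hm
      have e : δ / (m : ℝ) ^ 2 * Pool.Agent.H499R2.ND.Phi x = δ * Phi x / m ^ 2 := by
        rw [Pool.Agent.H499R2.ND.phi_cdf]; unfold Phi; ring
      rw [e] at h6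
      refine independent_of (Pool.Agent.Q49.AF.RX_congr (fun n _ => ?_) h6)
      unfold Level Pool.Agent.Q179.DV.Lv
      refine exists_congr fun u => exists_congr fun v => ?_
      rw [shift_iff]
      exact Iff.rfl
    exact ⟨hLv, fun d r k E hE τ hτ => laws hLv hE hτ⟩
  · obtain ⟨δ, h0, h1, hI, hz⟩ := hD s hs
    refine hz.1 ?_
    by_contra hcon
    have hδ0 : 0 < δ := lt_of_le_of_ne h0 (Ne.symm hcon)
    obtain ⟨N0, H⟩ := hI d r k (δ * κ / 2) (by positivity)
    have h6 : ∀ᶠ N : ℕ in atTop, ψ N < δ * κ / 2 := (tendsto_order.1 hψ).2 _ (by positivity)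
    obtain ⟨N, ⟨h7, h8⟩, h9, h10⟩ := (h.and_eventually (h6.and (eventually_ge_atTop (N0 + 1)))).exists
    have hNp : (0 : ℝ) < N := by exact_mod_cast (by omega : 0 < N)
    have h11 := (abs_le.1 (H N (by omega) (E N) (hE N)).1).1
    have h15 : ψ N * N < δ * κ / 2 * N := mul_lt_mul_of_pos_right h9 hNp
    have h16 : δ * (κ * N) ≤ δ * Count N (fun _ => True) (E N) := mul_le_mul_of_nonneg_left h7 hδ0.le
    linarith

end Pool.Agent.Results.MP_ff4775_nt.TimeShiftLaws
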