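import Pool.Agent.Results.MP_ff4775_nt.JointShiftLaws
import Pool.Agent.Q179.DV.War

set_option autoImplicit false

/-!
# Divergent trajectories of the `3x+1` map: Waring's problem with prescribed time shifts

Let the trajectory of `a` be divergent. If the trajectory of `z` meets it, `T^k z = T^j a`, then the time shift
`u = k - j` of `z` relative to `a` does not depend on the choice of `k` and `j`. Let `W` be the set of the integers `z`
whose trajectories meet the trajectory of `a` with a time shift in a given residue class modulo `m` and in a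
given window of the normal law. Let there be given families of integers of size at most `N`, at least `2 t` of which have
a `t`-th additive energy bounded by a constant times that of a random family; for example the values of given
nonconstant polynomials. Then for EVERY integer `n` of size `O(N)` the number of the
representations of `n` as a sum of `|z|`, where `z` is in `W`, and of one member of each family, is the expected multiple of
the number of the representations with an arbitrary `z` of the sign of `a`, up to `ε` times the number of all choices.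
In particular every large integer is a sum of `|z|`, `z` in `W`, and of `r` positive `k`-th powers, where `r = r(k)`
depends on `k` only.

Method: the Fourier coefficients of the indicator function of `W` minus its density are small
(`Pool/Agent/Q179/DV/Gow.lean`), and the circle method of `MP_d02c56_nt.WaringProblem` (this run).
-/

namespace Pool.Agent.Results.MP_ff4775_nt.WaringWithShifts

open Filter Topology

/-- The map `T` of the problem. -/
def T (n : ℤ) : ℤ := if n % 2 = 0 then n / 2 else (3 * n + 1) / 2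

/-- The trajectory of `n` is divergent. -/
def Divergent (n : ℤ) : Prop := Tendsto (fun k : ℕ => |T^[k] n|) atTop atTop

/-- The trajectory of `x` meets that of `a` with the time shift `u`: after `k` steps it is at the point where the
trajectory of `a` is after `j` steps, and `u = k - j`. -/
def Shift (a x u : ℤ) : Prop := ∃ k j : ℕ, T^[k] x = T^[j] a ∧ u = (k : ℤ) - j

/-- The integers whose trajectories meet the trajectory of `a`. -/
def Class (a : ℤ) : Set ℤ := {x | ∃ u : ℤ, Shift a x u}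

/-- Among the integers of sign `s` the set `S` has natural density `δ`. -/
def HasDensity (s : ℤ) (S : Set ℤ) (δ : ℝ) : Prop :=
  Tendsto (fun N : ℕ => ({n : ℤ | 0 < s * n ∧ s * n ≤ N ∧ n ∈ S}.ncard : ℝ) / N) atTop (𝓝 δ)

/-- `2 / log (4/3) * log |z| + x * log 3 * √(2 log |z| / (log (4/3))^3)` -/
noncomputable def bound (x : ℝ) (z : ℤ) : ℝ :=
  2 / Real.log (4 / 3) * Real.log |(z : ℝ)|
    + x * (Real.log 3 * Real.sqrt (2 * Real.log |(z : ℝ)| / Real.log (4 / 3) ^ 3))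

/-- The distribution function of the standard normal law. -/
noncomputable def Phi (x : ℝ) : ℝ :=
  ProbabilityTheory.cdf (ProbabilityTheory.gaussianReal 0 1) x

/-- The integers `z` whose trajectories meet the trajectory of `a` with a time shift `u` such that
`bound y z < u ≤ bound x z` and `u ≡ p` modulo `m`. -/
def Window (a : ℤ) (m : ℕ) (p : ℤ) (y x : ℝ) : Set ℤ :=
  {z : ℤ | ∃ u : ℤ, Shift a z u ∧ bound y z < u ∧ (u : ℝ) ≤ bound x z ∧ u ≡ p [ZMOD m]}

/-- The number of the pairs of `t`-tuples of members of the family `b` with the same sum. -/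
noncomputable def energy (t : ℕ) {L : ℕ} (b : Fin L → ℤ) : ℕ :=
  {p : (Fin t → Fin L) × (Fin t → Fin L) | ∑ i, b (p.1 i) = ∑ i, b (p.2 i)}.ncard

/-- The energy of the family `b` is at most `K L ^ (2 t) / N`. -/
def Spread (t : ℕ) (K : ℝ) (N : ℕ) {L : ℕ} (b : Fin L → ℤ) : Prop :=
  (energy t b : ℝ) ≤ K * (L : ℝ) ^ (2 * t) / N

/-- The number of the choices `v` of one member `b j (v j)` of each family such that the difference
`d` of `n` and the sum of these members is positive and `s d` is in `S`; so `n` is the sum of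
these members and of `|z|`, where `z = s d` is an element of `S` of sign `s`. -/
noncomputable def reps (s : ℤ) (S : Set ℤ) (n : ℤ) {r : ℕ} {L : Fin r → ℕ} (b : ∀ j, Fin (L j) → ℤ) : ℕ :=
  {v : ∀ j, Fin (L j) | 0 < n - ∑ j, b j (v j) ∧ s * (n - ∑ j, b j (v j)) ∈ S}.ncard

/-- The values of `P` at `1, ..., L`. -/
noncomputable def vals (P : Polynomial ℤ) (L : ℕ) : Fin L → ℤ :=
  fun m => P.eval (((m : ℕ) + 1 : ℕ) : ℤ)

/-- The number of the `r`-tuples `v` of positive integers with `|P (v j)| ≤ n` such that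
`n = P (v 1) + ... + P (v r) + |z|`, where `z` is an element of `S` of sign `s`. -/
noncomputable def polyReps (s : ℤ) (S : Set ℤ) (n : ℕ) (P : Polynomial ℤ) (r : ℕ) : ℕ :=
  {v : Fin r → ℕ | (∀ j, 1 ≤ v j ∧ |P.eval (v j : ℤ)| ≤ n) ∧
    0 < (n : ℤ) - ∑ j, P.eval (v j : ℤ) ∧ s * ((n : ℤ) - ∑ j, P.eval (v j : ℤ)) ∈ S}.ncard

/-! ### proofs -/

open Pool.Agent.Q179.DV
open Pool.Agent.Results.MP_ff4775_nt.JointShiftLaws (sign_cases dens dens_spec window_eq phi_eq phi_lt)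
open Pool.Agent.W41.FU (bal EE)

theorem FUs_window {a : ℤ} (ha : Divergent a) {m : ℕ} (hm : 1 ≤ m) (p : ℤ) {y x : ℝ} (h : y ≤ x) :
    FUs a.sign (Window a m p y x) (dens a * (Phi x - Phi y) / m) := by
  intro ε hε
  have hs := sign_cases ha
  obtain ⟨h0, h1, -, h3⟩ := dens_spec ha
  obtain ⟨N0, -, h4⟩ := GF.fou_WS hs h0.le h1 hm (h3 hs m hm) p h hε
  refine ⟨N0, fun N hN α => ?_⟩
  have h5 := h4 N hN α
  rw [window_eq ha hs rfl, phi_eq, phi_eq] at h5
  refine le_trans (le_of_eq ?_) h5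
  congr 1
  unfold Pool.Agent.Y834.CD.es EE
  apply Finset.sum_congr rfl
  intro n _
  have e1 : Complex.exp (2 * Real.pi * (α * ((n : ℕ) : ℤ) : ℝ) * Complex.I) = Pool.Agent.W41.FU.ee α (n : ℕ) := by
    unfold Pool.Agent.W41.FU.ee
    congr 2
    push_cast
    ring
  have e2 : (Window a m p y x).indicator (fun _ => (1 : ℝ)) (a.sign * (n : ℕ)) - (dens a * (Phi x - Phi y) / m) =
      bal a.sign (JointShiftLaws.Window a m p y x) (dens a * (JointShiftLaws.Phi x - JointShiftLaws.Phi y) / m) (n : ℕ) := by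
    unfold bal Pool.Agent.W41.ind
    by_cases h : a.sign * ((n : ℕ) : ℤ) ∈ Window a m p y x
    · have h' : a.sign * ((n : ℕ) : ℤ) ∈ JointShiftLaws.Window a m p y x := h
      rw [Set.indicator_of_mem h, if_pos h']
      rfl
    · have h' : a.sign * ((n : ℕ) : ℤ) ∉ JointShiftLaws.Window a m p y x := h
      rw [Set.indicator_of_notMem h, if_neg h']
      rfl
  rw [e2]
  congr 1

theorem dens_pos {a : ℤ} (ha : Divergent a) {m : ℕ} (hm : 1 ≤ m) {y x : ℝ} (h : y < x) :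
    0 < dens a * (Phi x - Phi y) / m := by
  have h1 := (dens_spec ha).1
  have h2 : Phi y < Phi x := phi_lt h
  have h3 : (0 : ℝ) < m := by exact_mod_cast hm
  have h4 : 0 < Phi x - Phi y := by linarith
  positivity

theorem general {a : ℤ} (ha : Divergent a) {m : ℕ} (hm : 1 ≤ m) (p : ℤ) {y x : ℝ} (hyx : y ≤ x) (r t B : ℕ)
    (ht : 1 ≤ t) (K : ℝ) {ε : ℝ} (hε : 0 < ε) :
    ∃ N₀ : ℕ, ∀ N : ℕ, N₀ ≤ N → ∀ (L : Fin r → ℕ) (b : ∀ j, Fin (L j) → ℤ), (∀ j i, |b j i| ≤ N) →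
      ∀ J : Finset (Fin r), 2 * t ≤ J.card → (∀ j ∈ J, Spread t K N (b j)) →
      ∀ n : ℤ, |n| ≤ B * N →
        |(reps a.sign (Window a m p y x) n b : ℝ) - dens a * (Phi x - Phi y) / m * reps a.sign Set.univ n b| ≤
          ε * ∏ j, (L j : ℝ) :=
  generalW (FUs_window ha hm p hyx) r t B ht K hε

theorem polynomials (F : Finset (Polynomial ℤ)) (hF : ∀ P ∈ F, 1 ≤ P.natDegree) : ∃ r₀ : ℕ, ∀ r : ℕ, r₀ ≤ r →
    ∀ a : ℤ, Divergent a → ∀ m : ℕ, 1 ≤ m → ∀ (p : ℤ) (y x : ℝ), y ≤ x → ∀ (B : ℕ) (ε : ℝ), 0 < ε → ∃ N₀ : ℕ,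
    ∀ N : ℕ, N₀ ≤ N → ∀ P : Fin r → Polynomial ℤ, (∀ j, P j ∈ F) →
    ∀ L : Fin r → ℕ, (∀ j, ∀ i : ℕ, 1 ≤ i → i ≤ L j → |(P j).eval (i : ℤ)| ≤ N) →
    (∀ j, N ≤ B * L j ^ (P j).natDegree) → ∀ n : ℤ, |n| ≤ B * N →
      |(reps a.sign (Window a m p y x) n (fun j => vals (P j) (L j)) : ℝ) -
        dens a * (Phi x - Phi y) / m * reps a.sign Set.univ n (fun j => vals (P j) (L j))| ≤ ε * ∏ j, (L j : ℝ) := by
  obtain ⟨r₀, h⟩ := polynomialsW F hF
  refine ⟨r₀, fun r hr a ha m hm p y x hyx B ε hε => ?_⟩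
  exact h r hr a.sign _ _ (FUs_window ha hm p hyx) B ε hε

theorem every {P : Polynomial ℤ} (hP : 1 ≤ P.natDegree) : ∃ r₀ : ℕ, 1 ≤ r₀ ∧ ∀ r : ℕ, r₀ ≤ r →
    ∀ a : ℤ, Divergent a → ∀ m : ℕ, 1 ≤ m → ∀ (p : ℤ) (y x : ℝ), y < x → ∃ κ : ℝ, 0 < κ ∧
    ∃ n₀ : ℕ, ∀ n : ℕ, n₀ ≤ n → κ * (n : ℝ) ^ ((r : ℝ) / P.natDegree) ≤ polyReps a.sign (Window a m p y x) n P r := by
  obtain ⟨r₀, hr₀, h⟩ := everyW hP
  refine ⟨r₀, hr₀, fun r hr a ha m hm p y x hyx => ?_⟩
  exact h r hr a.sign _ _ (dens_pos ha hm hyx) (FUs_window ha hm p hyx.le)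

theorem powers {k : ℕ} (hk : 1 ≤ k) : ∃ r : ℕ, 1 ≤ r ∧ ∀ a : ℤ, Divergent a → ∀ m : ℕ, 1 ≤ m →
    ∀ (p : ℤ) (y x : ℝ), y < x → ∃ n₀ : ℕ, ∀ n : ℕ, n₀ ≤ n → ∃ z ∈ Window a m p y x, ∃ v : Fin r → ℕ,
      (∀ j, 1 ≤ v j) ∧ (n : ℤ) = |z| + ∑ j, (v j : ℤ) ^ k := by
  have hdeg : (Polynomial.X ^ k : Polynomial ℤ).natDegree = k := Polynomial.natDegree_X_pow k
  obtain ⟨r, hr, H⟩ := every (P := Polynomial.X ^ k) (by rw [hdeg]; exact hk)
  refine ⟨r, hr, fun a ha m hm p y x hyx => ?_⟩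
  obtain ⟨κ, hκ, n₀, h⟩ := H r le_rfl a ha m hm p y x hyx
  refine ⟨n₀ + 1, fun n hn => ?_⟩
  have hs := sign_cases ha
  have h1 := h n (by omega)
  have hn0 : (0 : ℝ) < n := by exact_mod_cast (by omega : 0 < n)
  have h2 : (0 : ℝ) < polyReps a.sign (Window a m p y x) n (Polynomial.X ^ k) r := lt_of_lt_of_le (by positivity) h1
  have h3 : {v : Fin r → ℕ | (∀ j, 1 ≤ v j ∧ |(Polynomial.X ^ k : Polynomial ℤ).eval (v j : ℤ)| ≤ n) ∧
      0 < (n : ℤ) - ∑ j, (Polynomial.X ^ k : Polynomial ℤ).eval (v j : ℤ) ∧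
      a.sign * ((n : ℤ) - ∑ j, (Polynomial.X ^ k : Polynomial ℤ).eval (v j : ℤ)) ∈ Window a m p y x}.Nonempty := by
    apply Set.nonempty_of_ncard_ne_zero
    intro h0
    unfold polyReps at h2
    rw [h0] at h2
    simp at h2
  obtain ⟨v, hv1, hv2, hv3⟩ := h3
  simp only [Polynomial.eval_pow, Polynomial.eval_X] at hv1 hv2 hv3
  refine ⟨_, hv3, v, fun j => (hv1 j).1, ?_⟩
  have : |a.sign * ((n : ℤ) - ∑ j, (v j : ℤ) ^ k)| = (n : ℤ) - ∑ j, (v j : ℤ) ^ k := by
    rcases hs with h5 | h5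
    · rw [h5, one_mul, abs_of_pos hv2]
    · rw [h5, neg_one_mul, abs_neg, abs_of_pos hv2]
  rw [this]
  ring

theorem sufficient {P : Polynomial ℤ} {r : ℕ} {m : ℕ} {p : ℤ} {y x : ℝ} (hP : 1 ≤ P.natDegree)
    (H : ∀ a : ℤ, Divergent a → ∃ κ : ℝ, 0 < κ ∧
    ∃ n₀ : ℕ, ∀ n : ℕ, n₀ ≤ n → κ * (n : ℝ) ^ ((r : ℝ) / P.natDegree) ≤ polyReps a.sign (Window a m p y x) n P r)
    {s : ℤ} (hs : s = 1 ∨ s = -1) {ψ : ℕ → ℝ} (hψ : Tendsto ψ atTop (𝓝 0))
    (h : ∃ᶠ n : ℕ in atTop, (polyReps s {z | ∃ a : ℤ, Divergent a ∧ z ∈ Window a m p y x} n P r : ℝ) ≤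
      ψ n * (n : ℝ) ^ ((r : ℝ) / P.natDegree)) : ∀ z : ℤ, 0 < s * z → ¬ Divergent z := by
  intro z hz hdz
  have hsz : z.sign = s := by
    rcases hs with rfl | rfl
    · exact Int.sign_eq_one_of_pos (by omega)
    · exact Int.sign_eq_neg_one_of_neg (by omega)
  obtain ⟨κ, hκ, n₀, h1⟩ := H z hdz
  have h2 : ∀ᶠ n : ℕ in atTop, ψ n < κ := (tendsto_order.1 hψ).2 κ hκ
  obtain ⟨n, h3, h4, h5⟩ := (h.and_eventually (h2.and (eventually_ge_atTop (n₀ + 1)))).exists
  have h6 := h1 n (by omega)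
  rw [hsz] at h6
  have hn0 : (0 : ℝ) < n := by exact_mod_cast (by omega : 0 < n)
  have h7 : ψ n * (n : ℝ) ^ ((r : ℝ) / P.natDegree) < κ * (n : ℝ) ^ ((r : ℝ) / P.natDegree) :=
    mul_lt_mul_of_pos_right h4 (by positivity)
  have h8 : (polyReps s (Window z m p y x) n P r : ℝ) ≤
      polyReps s {z | ∃ a : ℤ, Divergent a ∧ z ∈ Window a m p y x} n P r := by
    norm_cast
    apply Set.ncard_le_ncard _ (Pool.Agent.Results.MP_d02c56_nt.WaringProblem.polyReps_finite s _ n P hP r)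
    rintro v ⟨b1, b2, b3⟩
    exact ⟨b1, b2, z, hdz, b3⟩
  linarith

/-- WARING'S PROBLEM WITH PRESCRIBED TIME SHIFTS OF A DIVERGENT TRAJECTORY. The class of an integer `a` with divergent
trajectory has among the integers of the sign of `a` a natural density `δ a > 0`. Let `m ≥ 1`, `p` be an integer,
`y ≤ x`, and `W = Window a m p y x` the set of the integers whose trajectories meet that of `a` with
a time shift `u ≡ p` modulo `m` such that `bound y < u ≤ bound x`.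
(1) Let `r, t, B`, `K` and `ε > 0` be given. Then there is `N₀` such that for `N ≥ N₀`, for `r` families of integers of
absolute value at most `N`, of which `2 t` are spread (`t`-th energy at most `K L ^ (2 t) / N`), and for EVERY
integer `n` with `|n| ≤ B N`, the number of the representations of `n` as a sum of `|z|` with `z` in `W` and of
one member of each family is `δ a (Phi x - Phi y) / m` times the number of those with an arbitrary `z` of the sign
of `a`, up to `ε` times the number of all choices of the members.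
(2) For every finite set of nonconstant integral polynomials there is `r₀` such that this is the case for the values
of any `r ≥ r₀` of them at the first positive integers.
(3) For every `k ≥ 1` there is `r` such that for every `a` with divergent trajectory, `m ≥ 1`, `p` and `y < x` every
large integer is a sum of `|z|`, `z` in `W`, and of `r` positive `k`-th powers.
(4) For every nonconstant integral polynomial `P` there is `r₀` such that for `r ≥ r₀`, `m ≥ 1`, `p` and `y < x`: if `a` has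
a divergent trajectory, then every large `n` has at least `κ n ^ (r / deg P)` representations as a sum of `|z|`,
`z` in `W`, and of `r` values `P(v)`, `v ≥ 1`, `|P(v)| ≤ n`; so if for infinitely many `n` only
`o(n ^ (r / deg P))` tuples lead to an integer of sign `s` in a window `Window a m p y x` of some `a` with divergent
trajectory, then no integer of sign `s` has a divergent trajectory. -/
theorem result :
    ∃ δ : ℤ → ℝ, (∀ a : ℤ, Divergent a → 0 < δ a ∧ δ a ≤ 1 ∧ HasDensity a.sign (Class a) (δ a)) ∧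
    (∀ a : ℤ, Divergent a → ∀ m : ℕ, 1 ≤ m → ∀ (p : ℤ) (y x : ℝ), y ≤ x → ∀ r t B : ℕ, 1 ≤ t → ∀ K ε : ℝ, 0 < ε →
      ∃ N₀ : ℕ, ∀ N : ℕ, N₀ ≤ N → ∀ (L : Fin r → ℕ) (b : ∀ j, Fin (L j) → ℤ), (∀ j i, |b j i| ≤ N) →
      ∀ J : Finset (Fin r), 2 * t ≤ J.card → (∀ j ∈ J, Spread t K N (b j)) → ∀ n : ℤ, |n| ≤ B * N →
        |(reps a.sign (Window a m p y x) n b : ℝ) - δ a * (Phi x - Phi y) / m * reps a.sign Set.univ n b| ≤
          ε * ∏ j, (L j : ℝ)) ∧
    (∀ F : Finset (Polynomial ℤ), (∀ P ∈ F, 1 ≤ P.natDegree) → ∃ r₀ : ℕ, ∀ r : ℕ, r₀ ≤ r →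
      ∀ a : ℤ, Divergent a → ∀ m : ℕ, 1 ≤ m → ∀ (p : ℤ) (y x : ℝ), y ≤ x → ∀ (B : ℕ) (ε : ℝ), 0 < ε → ∃ N₀ : ℕ,
      ∀ N : ℕ, N₀ ≤ N → ∀ P : Fin r → Polynomial ℤ, (∀ j, P j ∈ F) →
      ∀ L : Fin r → ℕ, (∀ j, ∀ i : ℕ, 1 ≤ i → i ≤ L j → |(P j).eval (i : ℤ)| ≤ N) →
      (∀ j, N ≤ B * L j ^ (P j).natDegree) → ∀ n : ℤ, |n| ≤ B * N →
        |(reps a.sign (Window a m p y x) n (fun j => vals (P j) (L j)) : ℝ) -
          δ a * (Phi x - Phi y) / m * reps a.sign Set.univ n (fun j => vals (P j) (L j))| ≤ ε * ∏ j, (L j : ℝ)) ∧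
    (∀ k : ℕ, 1 ≤ k → ∃ r : ℕ, 1 ≤ r ∧ ∀ a : ℤ, Divergent a → ∀ m : ℕ, 1 ≤ m →
      ∀ (p : ℤ) (y x : ℝ), y < x → ∃ n₀ : ℕ, ∀ n : ℕ, n₀ ≤ n → ∃ z ∈ Window a m p y x, ∃ v : Fin r → ℕ,
        (∀ j, 1 ≤ v j) ∧ (n : ℤ) = |z| + ∑ j, (v j : ℤ) ^ k) ∧
    (∀ P : Polynomial ℤ, 1 ≤ P.natDegree → ∃ r₀ : ℕ, ∀ r : ℕ, r₀ ≤ r → ∀ m : ℕ, 1 ≤ m → ∀ (p : ℤ) (y x : ℝ), y < x →
      (∀ a : ℤ, Divergent a → ∃ κ : ℝ, 0 < κ ∧ ∃ n₀ : ℕ, ∀ n : ℕ, n₀ ≤ n →
        κ * (n : ℝ) ^ ((r : ℝ) / P.natDegree) ≤ polyReps a.sign (Window a m p y x) n P r) ∧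
      (∀ s : ℤ, (s = 1 ∨ s = -1) → ∀ ψ : ℕ → ℝ, Tendsto ψ atTop (𝓝 0) →
        (∃ᶠ n : ℕ in atTop, (polyReps s {z | ∃ a : ℤ, Divergent a ∧ z ∈ Window a m p y x} n P r : ℝ) ≤
          ψ n * (n : ℝ) ^ ((r : ℝ) / P.natDegree)) →
        ∀ z : ℤ, 0 < s * z → ¬ Divergent z)) := by
  refine ⟨dens, fun a ha => ?_, fun a ha m hm p y x hyx r t B ht K ε hε => general ha hm p hyx r t B ht K hε,
    fun F hF => polynomials F hF, fun k hk => powers hk, fun P hP => ?_⟩
  · obtain ⟨h1, h2, h3, -⟩ := dens_spec ha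
    exact ⟨h1, h2, h3⟩
  · obtain ⟨r₀, -, H⟩ := every hP
    refine ⟨r₀, fun r hr m hm p y x hyx => ⟨fun a ha => H r hr a ha m hm p y x hyx, fun s hs ψ hψ h => ?_⟩⟩
    exact sufficient hP (fun a ha => H r hr a ha m hm p y x hyx) hs hψ h

end Pool.Agent.Results.MP_ff4775_nt.WaringWithShifts
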